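import Pool.Agent.Lib.Pbb5b69.Assemble
import Pool.Agent.Lib.Pbb5b69.Facts2
import Pool.Agent.Lib.Pbb5b69.TameHom

/-!
# Tight substantial maps of manifolds like projective planes: the bound `N ≤ 3 d + 2`
-/

namespace Pool.Agent.Results.MP_bb5b69_gt.DimensionBound

open TightPP

/-- If `P` is a manifold like a projective plane, of dimension `2 d`, and `f : P → ℝ^N` is a tight
substantial map, then `N ≤ 3 d + 2`. -/
theorem result (d N : ℕ) (P : Type) [TopologicalSpace P] (hP : IsLikeProjectivePlane d P)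
    (f : P → EuclideanSpace ℝ (Fin N)) (hf : IsTight f) (hs : IsSubstantial f) :
    N ≤ 3 * d + 2 := by
  have hc := hP.compact
  have ht := hP.hausdorff
  obtain ⟨hlow, g, hg1, hg2, hg3, hg4⟩ := STop.like_low hP
  refine STop.bound_of_facts hP ⟨g, ?_⟩ f hf hs
  refine STop.facts_of_low hP.pos ?_ hlow hg1 hg2 hg3 hg4
  intro p
  obtain ⟨U, hU, hpU, ⟨e⟩⟩ := hP.locallyEuclidean p
  obtain ⟨φ, hφ, hr⟩ := STop.chart_of_homeo hU e
  exact ⟨φ, hφ, hr ▸ hpU⟩

end Pool.Agent.Results.MP_bb5b69_gt.DimensionBound
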