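import Pool.Agent.Lib.Pbb5b69.Cone

/-!
# A tight substantial map of the real projective plane whose image is not a convex hypersurface
-/

namespace Pool.Agent.Results.MP_bb5b69_gt.TightConeNotConvex

open TightPP

/-- There are a manifold like a projective plane `P` of dimension `2` (so `d = 1`) and a tight
substantial map `f : P → ℝ^3 = ℝ^(2d+1)` whose image is not a convex hypersurface. -/
theorem result :
    ∃ (P : Type) (_ : TopologicalSpace P) (f : P → EuclideanSpace ℝ (Fin (2 * 1 + 1))),
      IsLikeProjectivePlane 1 P ∧ IsTight f ∧ IsSubstantial f ∧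
        ¬ IsConvexHypersurface (Set.range f) :=
  Pbb5b69.main

end Pool.Agent.Results.MP_bb5b69_gt.TightConeNotConvex
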